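import Pool.Agent.Helper26.HN.Stmts
import Pool.Agent.Helper33.PM.Com

/-!
# Sheet HN, row DRZ
-/

set_option autoImplicit false

namespace Pool.Agent.Helper8.HN

open MeasureTheory Filter Pool.Agent.Helper95 Pool.Agent.Helper95.PW Pool.Agent.Helper95.LN
  Pool.Agent.Helper26.HN

theorem DRZ (h1 : ST_TUZ) (h2 : ST_ATZ) (h3 : ST_QHM) (h4 : ST_INTM) : ST_DRZ := by
  intro d hd
  obtain ⟨C1, hC1, H1⟩ := h1 d hd
  obtain ⟨C2, hC2, H2⟩ := h2 d C1 hd hC1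
  refine ⟨C1 + C2 + (3 / 2 + 32 / d), by positivity, ?_⟩
  intro n M X Z z E u hz hM hNuc hZ hSep hE hu hanti hsq hres
  have hk := H1 n M X Z z E u hz hM hNuc hZ hSep hE hu hanti hsq hres
  have hM1 : (1 : ℝ) ≤ M := by exact_mod_cast hM
  have hn0 : (0 : ℝ) ≤ n := Nat.cast_nonneg n
  have hnz : (n : ℝ) ≤ z * M := by
    rw [← hNuc.2]
    calc ∑ j, Z j ≤ ∑ _j : Fin M, z := Finset.sum_le_sum fun j _ => hZ j
      _ = z * M := by simp [mul_comm]
  have ha := H2 n M X z u hz hnz hSep hu hanti hsq hk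
  have hz2 : z ^ 2 ≤ z ^ (7 / 3 : ℝ) := by
    rw [← Real.rpow_natCast]
    exact Real.rpow_le_rpow_of_exponent_le hz (by norm_num)
  have hz1 : 1 ≤ z ^ (7 / 3 : ℝ) := Real.one_le_rpow hz (by norm_num)
  set P : ℝ := z ^ (7 / 3 : ℝ) * M with hP
  have hP1 : 1 ≤ P := by rw [hP]; nlinarith
  have hzM : z ^ 2 * M ≤ P := by rw [hP]; nlinarith
  have hsq0 : 0 ≤ Helper95.PW.sq u := com_sq_nonneg u
  have hkin0 : 0 ≤ kin u := com_kin_nonneg u
  have hQ := innm_Q_le h3 h4 X Z E u hu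
  have hE2 : (E + nucR X Z) * Helper95.PW.sq u ≤ 0 := mul_nonpos_of_nonpos_of_nonneg hE hsq0
  have h5 : QM X Z u + nucR X Z * Helper95.PW.sq u ≤ 3 / 2 := by nlinarith
  have h6 : 8 * (1 + z) / d * n * Helper95.PW.sq u ≤ 32 / d * P := by
    have e1 : 8 * (1 + z) / d ≤ 16 * z / d := div_le_div_of_nonneg_right (by linarith) hd.le
    have e2 : (0 : ℝ) ≤ 16 * z / d := by positivity
    calc 8 * (1 + z) / d * n * Helper95.PW.sq u ≤ 16 * z / d * (z * M) * 2 := by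
          gcongr
      _ = 32 / d * (z ^ 2 * M) := by ring
      _ ≤ 32 / d * P := by gcongr
  have hP0 : 0 ≤ P := by linarith
  have hd32 : 0 ≤ 32 / d := by positivity
  refine ⟨?_, ?_, ?_⟩
  · nlinarith [mul_nonneg hC2.le hP0, mul_nonneg hd32 hP0]
  · nlinarith [mul_nonneg hC1.le hP0, mul_nonneg hd32 hP0]
  · nlinarith [mul_nonneg hC1.le hP0, mul_nonneg hd32 hP0]

end Pool.Agent.Helper8.HN
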